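import Pool.Agent.P.MP_133cc4_co.CFinal
import Pool.Agent.P.MP_133cc4_co.Side

open Pool.Agent.P.MP_133cc4_co

theorem Pool.Agent.Results.MP_133cc4_co.AlephOne.result {V E : Type*}
    (tail head : E → V) (r : V) (hroot : ∀ e, head e ≠ r) (hloop : ∀ e, tail e ≠ head e)
    (F : Set E) (hF : IsFlame tail head r F)
    (hone : ∀ v, lam tail head r v = Cardinal.aleph 1 → {e | e ∈ F ∧ head e = v}.Countable)
    (hbig : ∀ e, e ∉ F → Cardinal.aleph 1 < lam tail head r (head e) →
      Cardinal.mk {a | a ∈ F ∧ head a = head e} < lam tail head r (head e) ∧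
      ((lam tail head r (head e)).IsRegular ∨ ∃ μ < lam tail head r (head e), ∀ y, y ≠ head e →
        lam tail head r y = lam tail head r (head e) → lam tail head (head e) y ≤ μ))
    (hchain : ¬ ∃ u : ℕ → V, Cardinal.aleph 1 < lam tail head r (u 0) ∧
      (lam tail head r (u 0)).IsRegular ∧ ∀ n, lam tail head r (u n) = lam tail head r (u 0) ∧
        (∃ e, e ∉ F ∧ head e = u n) ∧ u (n + 1) ≠ u n ∧
        ∀ Fam, PathFamily tail head r (u (n + 1)) {a | head a ≠ u n} Fam →
          Cardinal.mk Fam < lam tail head r (u 0)) :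
    ∃ L, F ⊆ L ∧ IsFlame tail head r L ∧ IsLarge tail head r L :=
  large_flame_small hroot hloop hF
    (fun v k => Cardinal.le_aleph0_iff_set_countable.2 (hone v k)) hbig
    fun ⟨_, u, h1, h2, h3⟩ => hchain ⟨u, (h3 0).1 ▸ ⟨h1, h2, h3⟩⟩

/-- The case of connectivities at most `ℵ₁`. -/
theorem Pool.Agent.Results.MP_133cc4_co.AlephOne.low {V E : Type*}
    (tail head : E → V) (r : V) (hroot : ∀ e, head e ≠ r) (hloop : ∀ e, tail e ≠ head e)
    (hlam : ∀ v, v ≠ r → lam tail head r v ≤ Cardinal.aleph 1)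
    (F : Set E) (hF : IsFlame tail head r F)
    (hc : ∀ v, {e | e ∈ F ∧ head e = v}.Countable) :
    ∃ L, F ⊆ L ∧ IsFlame tail head r L ∧ IsLarge tail head r L :=
  result tail head r hroot hloop F hF (fun v _ => hc v)
    (fun e _ k => (k.not_ge (hlam _ (hroot e))).elim)
    fun ⟨_, h1, _, h3⟩ => (h3 0).2.1.elim fun e k => h1.not_ge (hlam _ (k.2 ▸ hroot e))

/-- Every rooted digraph whose connectivities from the root are at most `ℵ₁` has a large flame. -/
theorem Pool.Agent.Results.MP_133cc4_co.AlephOne.exists_large_flame {V E : Type*}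
    (tail head : E → V) (r : V) (hroot : ∀ e, head e ≠ r) (hloop : ∀ e, tail e ≠ head e)
    (hlam : ∀ v, v ≠ r → lam tail head r v ≤ Cardinal.aleph 1) :
    ∃ L, IsFlame tail head r L ∧ IsLarge tail head r L :=
  (low tail head r hroot hloop hlam {_e | False}
    (fun _ _ => ⟨{_P | False}, ⟨fun _ k => k.elim, fun _ k => k.elim⟩, fun _ k => k.elim⟩)
    fun _ => Set.Subsingleton.countable fun _ k => k.1.elim).imp fun _ k => k.2

/-- At most `ℵ₁` edges: a large flame exists and flames of countable in-degree extend. -/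
theorem Pool.Agent.Results.MP_133cc4_co.AlephOne.aleph_one_edges {V E : Type*}
    (tail head : E → V) (r : V) (hroot : ∀ e, head e ≠ r) (hloop : ∀ e, tail e ≠ head e)
    (hE : Cardinal.mk E ≤ Cardinal.aleph 1) :
    (∃ L, IsFlame tail head r L ∧ IsLarge tail head r L) ∧
    ∀ F : Set E, IsFlame tail head r F → (∀ v, {e | e ∈ F ∧ head e = v}.Countable) →
      ∃ L, F ⊆ L ∧ IsFlame tail head r L ∧ IsLarge tail head r L :=
  ⟨exists_large_flame tail head r hroot hloop fun _ k => (side_lam_le k).trans hE,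
    low tail head r hroot hloop fun _ k => (side_lam_le k).trans hE⟩
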