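import Pool.Agent.P.MP_133cc4_co.LVert
import Pool.Agent.P.MP_133cc4_co.Side

open Pool.Agent.P.MP_133cc4_co

theorem Pool.Agent.Results.MP_133cc4_co.ChainFree.result {V E : Type*}
    (tail head : E → V) (r : V) (hroot : ∀ e, head e ≠ r) (hloop : ∀ e, tail e ≠ head e)
    (F : Set E) (hF : IsFlame tail head r F) (B : Set V)
    (hthin : ∀ e, e ∉ F → Cardinal.aleph0 < lam tail head r (head e) → head e ∉ B →
      Cardinal.mk {a | a ∈ F ∧ head a = head e} < lam tail head r (head e) ∧
      ((∃ μ < lam tail head r (head e), ∀ y, y ≠ head e →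
          lam tail head r y = lam tail head r (head e) → lam tail head (head e) y ≤ μ) ∨
        ((lam tail head r (head e)).IsRegular ∧ ∀ y, y ≠ head e →
          lam tail head r y = lam tail head r (head e) →
            lam tail head (head e) y < lam tail head r (head e))))
    (hchain : ¬ ∃ u : ℕ → V, Function.Injective u ∧ ∀ n, u n ∈ B ∧
      lam tail head r (u (n + 1)) = lam tail head r (u n) ∧
      ∃ P, IsPath tail head (u (n + 1)) (u n) P ∧
        ∀ e ∈ P, lam tail head r (tail e) ≤ lam tail head r (u n)) :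
    ∃ L, F ⊆ L ∧ IsFlame tail head r L ∧ IsLarge tail head r L :=
  large_flame_chains hroot hloop hF hthin hchain

/-- The case of an empty exceptional set. -/
theorem Pool.Agent.Results.MP_133cc4_co.ChainFree.thin_levels {V E : Type*}
    (tail head : E → V) (r : V) (hroot : ∀ e, head e ≠ r) (hloop : ∀ e, tail e ≠ head e)
    (F : Set E) (hF : IsFlame tail head r F)
    (hthin : ∀ e, e ∉ F → Cardinal.aleph0 < lam tail head r (head e) →
      Cardinal.mk {a | a ∈ F ∧ head a = head e} < lam tail head r (head e) ∧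
      ((∃ μ < lam tail head r (head e), ∀ y, y ≠ head e →
          lam tail head r y = lam tail head r (head e) → lam tail head (head e) y ≤ μ) ∨
        ((lam tail head r (head e)).IsRegular ∧ ∀ y, y ≠ head e →
          lam tail head r y = lam tail head r (head e) →
            lam tail head (head e) y < lam tail head r (head e)))) :
    ∃ L, F ⊆ L ∧ IsFlame tail head r L ∧ IsLarge tail head r L :=
  result tail head r hroot hloop F hF ∅ (fun e h1 h2 _ => hthin e h1 h2)
    fun ⟨_, _, h⟩ => (h 0).1

/-- All connectivities from the root are countable: every flame extends. -/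
theorem Pool.Agent.Results.MP_133cc4_co.ChainFree.countable_connectivity {V E : Type*}
    (tail head : E → V) (r : V) (hroot : ∀ e, head e ≠ r) (hloop : ∀ e, tail e ≠ head e)
    (hlam : ∀ v, v ≠ r → lam tail head r v ≤ Cardinal.aleph0)
    (F : Set E) (hF : IsFlame tail head r F) :
    ∃ L, F ⊆ L ∧ IsFlame tail head r L ∧ IsLarge tail head r L :=
  thin_levels tail head r hroot hloop F hF fun e _ k => (k.not_ge (hlam _ (hroot e))).elim

/-- Countably many edges: every flame extends. -/
theorem Pool.Agent.Results.MP_133cc4_co.ChainFree.countable_digraph {V E : Type*}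
    (tail head : E → V) (r : V) (hroot : ∀ e, head e ≠ r) (hloop : ∀ e, tail e ≠ head e)
    (hE : Cardinal.mk E ≤ Cardinal.aleph0) (F : Set E) (hF : IsFlame tail head r F) :
    ∃ L, F ⊆ L ∧ IsFlame tail head r L ∧ IsLarge tail head r L :=
  countable_connectivity tail head r hroot hloop (fun _ k => (side_lam_le k).trans hE) F hF

/-- Finitely many exceptional vertices on each level. -/
theorem Pool.Agent.Results.MP_133cc4_co.ChainFree.finite_exceptions {V E : Type*}
    (tail head : E → V) (r : V) (hroot : ∀ e, head e ≠ r) (hloop : ∀ e, tail e ≠ head e)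
    (F : Set E) (hF : IsFlame tail head r F) (B : Set V)
    (hthin : ∀ e, e ∉ F → Cardinal.aleph0 < lam tail head r (head e) → head e ∉ B →
      Cardinal.mk {a | a ∈ F ∧ head a = head e} < lam tail head r (head e) ∧
      ((∃ μ < lam tail head r (head e), ∀ y, y ≠ head e →
          lam tail head r y = lam tail head r (head e) → lam tail head (head e) y ≤ μ) ∨
        ((lam tail head r (head e)).IsRegular ∧ ∀ y, y ≠ head e →
          lam tail head r y = lam tail head r (head e) →
            lam tail head (head e) y < lam tail head r (head e))))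
    (hB : ∀ v, Cardinal.mk {y | y ∈ B ∧ lam tail head r y = lam tail head r v} < Cardinal.aleph0) :
    ∃ L, F ⊆ L ∧ IsFlame tail head r L ∧ IsLarge tail head r L := by
  refine result tail head r hroot hloop F hF B hthin fun ⟨u, hu, h⟩ => ?_
  have k : ∀ n, lam tail head r (u n) = lam tail head r (u 0) := fun n =>
    Nat.rec rfl (fun m j => (h m).2.1.trans j) n
  exact Set.infinite_of_injective_forall_mem hu (fun n => And.intro (h n).1 (k n))
    (Cardinal.lt_aleph0_iff_set_finite.1 (hB (u 0)))

/-- Finitely many vertices, any multiplicities: every flame extends. -/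
theorem Pool.Agent.Results.MP_133cc4_co.ChainFree.finite_vertices {V E : Type*}
    (tail head : E → V) (r : V) (hroot : ∀ e, head e ≠ r) (hloop : ∀ e, tail e ≠ head e)
    (hV : Cardinal.mk V < Cardinal.aleph0) (F : Set E) (hF : IsFlame tail head r F) :
    ∃ L, F ⊆ L ∧ IsFlame tail head r L ∧ IsLarge tail head r L :=
  finite_exceptions tail head r hroot hloop F hF {_v | True} (fun _ _ _ k => (k trivial).elim)
    fun _ => (Cardinal.mk_set_le _).trans_lt hV

/-- The known case: no closed walk with an edge and no backward-infinite path. -/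
theorem Pool.Agent.Results.MP_133cc4_co.ChainFree.acyclic_no_backward_ray {V E : Type*}
    (tail head : E → V) (r : V) (hroot : ∀ e, head e ≠ r)
    (hacyc : ∀ v p, Walk tail head v p v → p = [])
    (hray : ¬ ∃ f : ℕ → E, Function.Injective (fun n => head (f n)) ∧
      ∀ n, head (f (n + 1)) = tail (f n))
    (F : Set E) (hF : IsFlame tail head r F) :
    ∃ L, F ⊆ L ∧ IsFlame tail head r L ∧ IsLarge tail head r L :=
  result tail head r hroot (side_loop hacyc) F hF {_v | True} (fun _ _ _ k => (k trivial).elim)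
    fun ⟨u, hu, h⟩ => side_no_chain hacyc hray u hu fun n => (h n).2.2.imp fun _ k => k.1

/-- The vertex version: in every rooted digraph every vertex-flame with countable in-degrees
extends to a large vertex-flame (split every vertex and apply `result`). -/
theorem Pool.Agent.Results.MP_133cc4_co.ChainFree.vertex_flames {V E : Type*}
    (tail head : E → V) (r : V) (hroot : ∀ e, head e ≠ r) (F : Set E)
    (hF : ∀ v, v ≠ r → ∃ Fam, PathFamily tail head r v F Fam ∧
      (∀ P ∈ Fam, ∀ Q ∈ Fam, ∀ a ∈ P, ∀ b ∈ Q, head a = head b → head a ≠ v → P = Q) ∧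
      ∀ e ∈ F, head e = v → e ∈ ⋃₀ Fam)
    (hc : ∀ v, Cardinal.mk {e | e ∈ F ∧ head e = v} ≤ Cardinal.aleph0) :
    ∃ L, F ⊆ L ∧
      (∀ v, v ≠ r → ∃ Fam, PathFamily tail head r v L Fam ∧
        (∀ P ∈ Fam, ∀ Q ∈ Fam, ∀ a ∈ P, ∀ b ∈ Q, head a = head b → head a ≠ v → P = Q) ∧
        ∀ e ∈ L, head e = v → e ∈ ⋃₀ Fam) ∧
      ∀ v, v ≠ r → ∃ (Fam : Set (Set E)) (C : Set E) (S : Set V), PathFamily tail head r v L Fam ∧
        (∀ P ∈ Fam, ∀ Q ∈ Fam, ∀ a ∈ P, ∀ b ∈ Q, head a = head b → head a ≠ v → P = Q) ∧
        (∀ P, IsPath tail head r v P → ∃ a ∈ P, a ∈ C ∨ head a ∈ S) ∧ v ∉ S ∧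
        (∀ a ∈ C, head a ∉ S) ∧ C ⊆ ⋃₀ Fam ∧ (∀ x ∈ S, ∃ a ∈ ⋃₀ Fam, head a = x) ∧
        ∀ P ∈ Fam, ∃! a, a ∈ P ∧ (a ∈ C ∨ head a ∈ S) := by
  obtain ⟨L, h1, h2, h3⟩ := result (spT tail r) (spH head r) (r, true) (split_root hroot) split_loop
    _ (split_flame hroot hF) ∅ (fun e _ k _ => (split_thin hroot hc e k).imp_right
      fun ⟨μ, j1, j2⟩ => Or.inl ⟨μ, j1, fun y i _ => j2 y i⟩) fun ⟨_, _, h⟩ => (h 0).1
  exact ⟨_, fun e k => h1 k, split_back hroot h2 h3⟩
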